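import Mathlib

namespace Pool.Agent.H.MP_e86704_lc

open Cardinal Order

structure Gap {T : Type} [LinearOrder T] (A B : Set T) : Prop where
  neA : A.Nonempty
  neB : B.Nonempty
  lt : ∀ a ∈ A, ∀ b ∈ B, a < b
  nomax : ∀ a ∈ A, ∃ a' ∈ A, a < a'
  nomin : ∀ b ∈ B, ∃ b' ∈ B, b' < b
  cov : ∀ x, x ∈ A ∨ x ∈ B

section cofs
variable {T X : Type} [LinearOrder T] [LinearOrder X]

lemma cof_up {A : Set T} (f : X → T) (hf : StrictMono f) (h1 : ∀ x, f x ∈ A)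
    (h2 : ∀ a ∈ A, ∃ x, a ≤ f x) : cof A = cof X := by
  refine (cof_congr_of_strictMono (f := fun x => (⟨f x, h1 x⟩ : A)) (fun a b h => hf h) ?_).symm
  intro a
  obtain ⟨x, hx⟩ := h2 a.1 a.2
  exact ⟨_, ⟨x, rfl⟩, hx⟩

lemma cof_dn {B : Set T} (f : X → T) (hf : StrictAnti f) (h1 : ∀ x, f x ∈ B)
    (h2 : ∀ a ∈ B, ∃ x, f x ≤ a) : cof (B)ᵒᵈ = cof X := by
  refine (cof_congr_of_strictMono (f := fun x => OrderDual.toDual (⟨f x, h1 x⟩ : B))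
    (fun a b h => hf h) ?_).symm
  intro a
  obtain ⟨x, hx⟩ := h2 (OrderDual.ofDual a).1 (OrderDual.ofDual a).2
  exact ⟨_, ⟨x, rfl⟩, hx⟩

end cofs

variable {Γ : Type} [LinearOrder Γ]

abbrev H (Γ : Type) [LinearOrder Γ] := Lex (HahnSeries Γ ℝ)

def c (x : H Γ) (i : Γ) : ℝ := (ofLex x).coeff i
noncomputable def t (γ : Γ) (r : ℝ) : H Γ := toLex (HahnSeries.single γ r)

lemma ltc {x y : H Γ} : x < y ↔ ∃ i, (∀ j < i, c x j = c y j) ∧ c x i < c y i :=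
  HahnSeries.lt_iff x y

lemma c_add_t (x : H Γ) (γ : Γ) (r : ℝ) (i : Γ) :
    c (x + t γ r) i = c x i + if i = γ then r else 0 := by
  simp [c, t, HahnSeries.coeff_single]

lemma c_ne (x : H Γ) {γ i : Γ} (r : ℝ) (h : i ≠ γ) : c (x + t γ r) i = c x i := by
  rw [c_add_t, if_neg h, add_zero]

lemma c_eq (x : H Γ) (γ : Γ) (r : ℝ) : c (x + t γ r) γ = c x γ + r := by
  rw [c_add_t, if_pos rfl]

lemma c_neg (x : H Γ) (i : Γ) : c (-x) i = - c x i := by simp [c]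

lemma t_lt (x : H Γ) (γ : Γ) {r s : ℝ} (h : r < s) : x + t γ r < x + t γ s :=
  ltc.2 ⟨γ, fun j hj => by rw [c_ne _ _ hj.ne, c_ne _ _ hj.ne], by rw [c_eq, c_eq]; linarith⟩

lemma t_anti (x : H Γ) {γ δ : Γ} (h : γ < δ) : x + t δ 1 < x + t γ 1 :=
  ltc.2 ⟨γ, fun j hj => by rw [c_ne _ _ hj.ne, c_ne _ _ (hj.trans h).ne],
    by rw [c_eq, c_ne _ _ h.ne]; linarith⟩

lemma lt_t (x : H Γ) (γ : Γ) {r : ℝ} (h : 0 < r) : x < x + t γ r :=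
  ltc.2 ⟨γ, fun j hj => by rw [c_ne _ _ hj.ne], by rw [c_eq]; linarith⟩

lemma between {a z b : H Γ} (h1 : a ≤ z) (h2 : z ≤ b) {γ : Γ} (h : ∀ j ≤ γ, c a j = c b j) :
    ∀ j ≤ γ, c a j = c z j := by
  rcases h1.lt_or_eq with h1 | rfl
  · obtain ⟨i, hi1, hi2⟩ := ltc.1 h1
    by_cases hi : i ≤ γ
    · exact absurd (ltc.2 ⟨i, fun j hj => by rw [← h j (hj.le.trans hi), hi1 j hj],
        by rw [← h i hi]; exact hi2⟩) (not_lt.2 h2)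
    · exact fun j hj => hi1 j (hj.trans_lt (not_le.1 hi))
  · exact fun _ _ => rfl

lemma edge (x : H Γ) {P Q : Set Γ} (hΓ : Gap P Q) {A B : Set (H Γ)}
    (hB : ∀ y, y ∈ B ↔ ∃ i ∈ P, (∀ j < i, c x j = c y j) ∧ c x i < c y i)
    (hA : ∀ y, y ∈ A ↔ y ∉ B) : Gap A B ∧ cof A = cof (Q)ᵒᵈ ∧ cof (B)ᵒᵈ = cof P := by
  have a1 : ∀ γ ∈ Q, x + t γ 1 ∈ A := by
    intro γ hγ
    rw [hA, hB]
    rintro ⟨i, hi, -, h⟩
    rw [c_ne _ _ (hΓ.lt i hi γ hγ).ne] at h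
    exact lt_irrefl _ h
  have a2 : ∀ a ∈ A, ∃ γ ∈ Q, a < x + t γ 1 := by
    intro a ha
    rcases le_or_gt a x with h | h
    · obtain ⟨γ, hγ⟩ := hΓ.neB
      exact ⟨γ, hγ, h.trans_lt (lt_t _ _ one_pos)⟩
    · obtain ⟨i, h1, h2⟩ := ltc.1 h
      rcases hΓ.cov i with hi | hi
      · exact absurd ((hB a).2 ⟨i, hi, h1, h2⟩) ((hA a).1 ha)
      · obtain ⟨γ, hγ, hlt⟩ := hΓ.nomin i hi
        exact ⟨γ, hγ, ltc.2 ⟨γ, fun j hj => by rw [c_ne _ _ hj.ne, h1 j (hj.trans hlt)],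
          by rw [c_eq, h1 γ hlt]; linarith⟩⟩
  have b1 : ∀ γ ∈ P, x + t γ 1 ∈ B := fun γ hγ =>
    (hB _).2 ⟨γ, hγ, fun j hj => by rw [c_ne _ _ hj.ne], by rw [c_eq]; linarith⟩
  have b2 : ∀ b ∈ B, ∃ γ ∈ P, x + t γ 1 < b := by
    intro b hb
    obtain ⟨i, hi, h1, h2⟩ := (hB b).1 hb
    obtain ⟨γ, hγ, hlt⟩ := hΓ.nomax i hi
    exact ⟨γ, hγ, ltc.2 ⟨i, fun j hj => by rw [c_ne _ _ (hj.trans hlt).ne, h1 j hj],
      by rw [c_ne _ _ hlt.ne]; exact h2⟩⟩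
  refine ⟨⟨?_, ?_, fun a ha b hb => ?_, fun a ha => ?_, fun b hb => ?_, fun y => ?_⟩, ?_, ?_⟩
  · obtain ⟨γ, hγ⟩ := hΓ.neB; exact ⟨_, a1 γ hγ⟩
  · obtain ⟨γ, hγ⟩ := hΓ.neA; exact ⟨_, b1 γ hγ⟩
  · obtain ⟨γ, hγ, h1⟩ := a2 a ha
    obtain ⟨δ, hδ, h2⟩ := b2 b hb
    exact h1.trans ((t_anti x (hΓ.lt δ hδ γ hγ)).trans h2)
  · obtain ⟨γ, hγ, h1⟩ := a2 a ha; exact ⟨_, a1 γ hγ, h1⟩
  · obtain ⟨γ, hγ, h1⟩ := b2 b hb; exact ⟨_, b1 γ hγ, h1⟩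
  · rw [hA]; exact (em _).symm
  · refine cof_up (X := (Q)ᵒᵈ) (fun γ => x + t (OrderDual.ofDual γ).1 1)
      (fun a b h => t_anti x h) (fun γ => a1 _ (OrderDual.ofDual γ).2) fun a ha => ?_
    obtain ⟨γ, hγ, h⟩ := a2 a ha
    exact ⟨OrderDual.toDual ⟨γ, hγ⟩, h.le⟩
  · refine cof_dn (X := P) (fun γ => x + t γ.1 1)
      (fun a b h => t_anti x h) (fun γ => b1 _ γ.2) fun a ha => ?_
    obtain ⟨γ, hγ, h⟩ := b2 a ha
    exact ⟨⟨γ, hγ⟩, h.le⟩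

lemma gap_up {P Q : Set Γ} (hΓ : Gap P Q) :
    ∃ A B : Set (H Γ), Gap A B ∧ cof A = cof (Q)ᵒᵈ ∧ cof (B)ᵒᵈ = cof P :=
  ⟨{y | ∃ i ∈ P, (∀ j < i, c 0 j = c y j) ∧ c 0 i < c y i}ᶜ, _,
    edge 0 hΓ (fun _ => Iff.rfl) (fun _ => Iff.rfl)⟩

lemma Gap.up {T : Type} [LinearOrder T] {A B : Set T} (h : Gap A B) {b y : T} (hb : b ∈ B)
    (hy : b ≤ y) : y ∈ B := by
  rcases h.cov y with h1 | h1
  · exact absurd (h.lt y h1 b hb) (not_lt.2 hy)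
  · exact h1

lemma Gap.dn {T : Type} [LinearOrder T] {A B : Set T} (h : Gap A B) {a y : T} (ha : a ∈ A)
    (hy : y ≤ a) : y ∈ A := by
  rcases h.cov y with h1 | h1
  · exact h1
  · exact absurd (h.lt a ha y h1) (not_lt.2 hy)

lemma Gap.neg {A B : Set (H Γ)} (h : Gap A B) : Gap {y | -y ∈ B} {y | -y ∈ A} ∧
    cof {y : H Γ | -y ∈ B} = cof (B)ᵒᵈ ∧ cof ({y : H Γ | -y ∈ A})ᵒᵈ = cof A := by
  refine ⟨⟨?_, ?_, fun a ha b hb => ?_, fun a ha => ?_, fun b hb => ?_, fun y => (h.cov _).symm⟩,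
    ?_, ?_⟩
  · obtain ⟨b, hb⟩ := h.neB; exact ⟨-b, by simpa using hb⟩
  · obtain ⟨b, hb⟩ := h.neA; exact ⟨-b, by simpa using hb⟩
  · exact neg_lt_neg_iff.1 (h.lt _ hb _ ha)
  · obtain ⟨b, hb, hlt⟩ := h.nomin _ ha
    exact ⟨-b, by simpa using hb, lt_neg.1 hlt⟩
  · obtain ⟨a, ha, hlt⟩ := h.nomax _ hb
    exact ⟨-a, by simpa using ha, neg_lt.1 hlt⟩
  · refine cof_up (X := (B)ᵒᵈ) (fun b => - (OrderDual.ofDual b).1)
      (fun a b hab => neg_lt_neg hab) (fun b => by simpa using (OrderDual.ofDual b).2)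
      fun a ha => ⟨OrderDual.toDual ⟨-a, ha⟩, by simp⟩
  · refine cof_dn (X := A) (fun b => - b.1)
      (fun a b hab => neg_lt_neg hab) (fun b => by simpa using b.2)
      fun a ha => ⟨⟨-a, ha⟩, by simp⟩

/- residue case -/
lemma res {A B : Set (H Γ)} (h : Gap A B) {x : H Γ} (hx : x ∈ A) {γ : Γ}
    (h1 : ∀ b ∈ B, ∀ i, (∀ j < i, c x j = c b j) → i ≤ γ)
    (h2 : ∀ r : ℝ, 0 < r → x + t γ r ∈ B) : cof (B)ᵒᵈ = ℵ₀ := by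
  rw [← cof_nat]
  refine cof_dn (fun n : ℕ => x + t γ (1 / ((n : ℝ) + 1))) (fun m n hmn => t_lt _ _ ?_)
    (fun n => h2 _ Nat.one_div_pos_of_nat) fun b hb => ?_
  · exact Nat.one_div_lt_one_div hmn
  · obtain ⟨i, hi1, hi2⟩ := ltc.1 (h.lt x hx b hb)
    rcases (h1 b hb i hi1).lt_or_eq with hi | rfl
    · exact ⟨0, (ltc.2 ⟨i, fun j hj => by rw [c_ne _ _ (hj.trans hi).ne, hi1 j hj],
        by rw [c_ne _ _ hi.ne]; exact hi2⟩).le⟩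
    · obtain ⟨n, hn⟩ := exists_nat_one_div_lt (sub_pos.2 hi2)
      exact ⟨n, (ltc.2 ⟨i, fun j hj => by rw [c_ne _ _ hj.ne, hi1 j hj],
        by rw [c_eq]; linarith⟩).le⟩

/- limit case -/
lemma lim {A B : Set (H Γ)} (h : Gap A B) {x : H Γ} (hx : x ∈ A) {P : Set Γ}
    (hP : P.Nonempty) (hdn : ∀ i ∈ P, ∀ j ≤ i, j ∈ P) (hnm : ∀ i ∈ P, ∃ j ∈ P, i < j)
    (h1 : ∀ b ∈ B, ∀ i, (∀ j < i, c x j = c b j) → i ∈ P)
    (h2 : ∀ γ ∈ P, ∃ b ∈ B, ∀ j ≤ γ, c x j = c b j) (hA : cof A ≠ ℵ₀) :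
    Gap P Pᶜ ∧ cof A = cof (↥Pᶜ)ᵒᵈ ∧ cof (B)ᵒᵈ = cof P := by
  have hB : ∀ y, y ∈ B ↔ ∃ i ∈ P, (∀ j < i, c x j = c y j) ∧ c x i < c y i := by
    intro y
    constructor
    · intro hy
      obtain ⟨i, hi1, hi2⟩ := ltc.1 (h.lt x hx y hy)
      exact ⟨i, h1 y hy i hi1, hi1, hi2⟩
    · rintro ⟨i, hi, hi1, hi2⟩
      obtain ⟨b, hb, hb2⟩ := h2 i hi
      exact h.up hb (ltc.2 ⟨i, fun j hj => by rw [← hb2 j hj.le, hi1 j hj],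
        by rw [← hb2 i le_rfl]; exact hi2⟩).le
  have hA' : ∀ y, y ∈ A ↔ y ∉ B := fun y =>
    ⟨fun ha hb => lt_irrefl _ (h.lt y ha y hb), fun hb => (h.cov y).resolve_right hb⟩
  have hlt : ∀ i ∈ P, ∀ j ∈ Pᶜ, i < j := fun i hi j hj =>
    lt_of_not_ge fun hh => hj (hdn i hi j hh)
  have hG : Gap P Pᶜ := by
    refine ⟨hP, ?_, hlt, hnm, fun γ hγ => ?_, fun i => em _⟩
    · obtain ⟨a, ha, hxa⟩ := h.nomax x hx
      obtain ⟨i, hi1, hi2⟩ := ltc.1 hxa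
      exact ⟨i, fun hi => (hA' a).1 ha ((hB a).2 ⟨i, hi, hi1, hi2⟩)⟩
    · by_contra hc
      push Not at hc
      apply hA
      rw [← cof_nat]
      refine cof_up (fun n : ℕ => x + t γ ((n : ℝ) + 1))
        (fun m n hmn => t_lt _ _ (by simpa using hmn)) (fun n => ?_) fun a ha => ?_
      · rw [hA', hB]
        rintro ⟨i, hi, -, hh⟩
        rw [c_ne _ _ (hlt i hi γ hγ).ne] at hh
        exact lt_irrefl _ hh
      · rcases le_or_gt a x with hh | hh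
        · exact ⟨0, (hh.trans_lt (lt_t _ _ (by simp))).le⟩
        · obtain ⟨i, hi1, hi2⟩ := ltc.1 hh
          have hi : γ ≤ i := hc i fun hi => (hA' a).1 ha ((hB a).2 ⟨i, hi, hi1, hi2⟩)
          obtain ⟨n, hn⟩ := exists_nat_gt (c a γ - c x γ)
          exact ⟨n, (ltc.2 ⟨γ, fun j hj => by rw [c_ne _ _ hj.ne, hi1 j (hj.trans_le hi)],
            by rw [c_eq]; linarith⟩).le⟩
  exact ⟨hG, (edge x hG hB hA').2⟩

theorem gap_down {A B : Set (H Γ)} (h : Gap A B) {κ : Cardinal} (hκ : κ ≠ ℵ₀) (hA : cof A = κ)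
    (hB : cof (B)ᵒᵈ = κ) : ∃ P Q : Set Γ, Gap P Q ∧ cof P = κ ∧ cof (Q)ᵒᵈ = κ := by
  obtain ⟨P, hP⟩ : ∃ P : Set Γ, ∀ γ, γ ∈ P ↔ ∃ a ∈ A, ∃ b ∈ B, ∀ j < γ, c a j = c b j :=
    ⟨{γ | ∃ a ∈ A, ∃ b ∈ B, ∀ j < γ, c a j = c b j}, fun _ => Iff.rfl⟩
  obtain ⟨hn, hn1, hn2⟩ := h.neg
  have hne : P.Nonempty := by
    obtain ⟨a, ha⟩ := h.neA
    obtain ⟨b, hb⟩ := h.neB
    obtain ⟨i, hi, -⟩ := ltc.1 (h.lt a ha b hb)
    exact ⟨i, (hP i).2 ⟨a, ha, b, hb, hi⟩⟩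
  have hdn : ∀ i ∈ P, ∀ j ≤ i, j ∈ P := by
    intro i hi j hj
    obtain ⟨a, ha, b, hb, hab⟩ := (hP i).1 hi
    exact (hP j).2 ⟨a, ha, b, hb, fun k hk => hab k (hk.trans_le hj)⟩
  by_cases hnm : ∀ i ∈ P, ∃ j ∈ P, i < j
  · have hch : ∀ γ ∈ P, ∃ a ∈ A, ∃ b ∈ B, ∀ j ≤ γ, c a j = c b j := by
      intro γ hγ
      obtain ⟨δ, hδ, hlt⟩ := hnm γ hγ
      obtain ⟨a, ha, b, hb, hab⟩ := (hP δ).1 hδ
      exact ⟨a, ha, b, hb, fun j hj => hab j (hj.trans_lt hlt)⟩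
    choose! a ha b hb hab using hch
    have cons : ∀ γ ∈ P, ∀ j ≤ γ, c (a j) j = c (a γ) j := by
      intro γ hγ j hj
      have hjP := hdn γ hγ j hj
      rcases le_total (a j) (a γ) with hh | hh
      · exact between hh (h.lt _ (ha γ hγ) _ (hb j hjP)).le (hab j hjP) j le_rfl
      · exact (between hh (h.lt _ (ha j hjP) _ (hb γ hγ)).le (hab γ hγ) j hj).symm
    classical
    obtain ⟨x, hx⟩ : ∃ x : H Γ, ∀ j, c x j = if j ∈ P then c (a j) j else 0 := by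
      refine ⟨toLex ⟨fun j => if j ∈ P then c (a j) j else 0, Set.IsWF.isPWO ?_⟩, fun _ => rfl⟩
      rw [Set.isWF_iff_no_descending_seq]
      intro f hf hmem
      have h0 : ∀ n, f n ∈ P ∧ c (a (f n)) (f n) ≠ 0 := fun n => by
        simpa using hmem n
      refine Set.isWF_iff_no_descending_seq.1 (ofLex (a (f 0))).isWF_support f hf fun n => ?_
      have := (h0 n).2
      rw [cons _ (h0 0).1 _ (hf.antitone (Nat.zero_le n))] at this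
      exact this
    have hxa : ∀ γ ∈ P, ∀ j ≤ γ, c x j = c (a γ) j := fun γ hγ j hj => by
      rw [hx, if_pos (hdn γ hγ j hj), cons γ hγ j hj]
    rcases h.cov x with hxA | hxB
    · obtain ⟨g, e1, e2⟩ := lim h hxA hne hdn hnm
        (fun y hy i hi => (hP i).2 ⟨x, hxA, y, hy, hi⟩)
        (fun γ hγ => ⟨b γ, hb γ hγ, fun j hj => by rw [hxa γ hγ j hj, hab γ hγ j hj]⟩)
        (hA ▸ hκ)
      exact ⟨P, Pᶜ, g, e2 ▸ hB, e1 ▸ hA⟩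
    · obtain ⟨g, e1, e2⟩ := lim hn (x := -x) (by simpa using hxB) hne hdn hnm
        (fun y hy i hi => (hP i).2 ⟨-y, hy, x, hxB, fun j hj => by
          rw [c_neg, ← hi j hj, c_neg, neg_neg]⟩)
        (fun γ hγ => ⟨-a γ, by simpa using ha γ hγ, fun j hj => by
          rw [c_neg, c_neg, hxa γ hγ j hj]⟩)
        (by rw [hn1, hB]; exact hκ)
      exact ⟨P, Pᶜ, g, by rw [← e2, hn2, hA], by rw [← e1, hn1, hB]⟩
  · exfalso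
    push Not at hnm
    obtain ⟨γ, hγ, hmax⟩ := hnm
    obtain ⟨a, ha, b, hb, hab⟩ := (hP γ).1 hγ
    have hbdd : ∀ r : ℝ, a + t γ r ∈ A → r ≤ c b γ - c a γ := by
      intro r hr
      by_contra hc
      refine absurd (h.lt _ hr b hb) (not_lt.2 (ltc.2 ⟨γ, fun j hj => ?_, ?_⟩).le)
      · rw [c_ne _ _ hj.ne, hab j hj]
      · rw [c_eq]; linarith
    have h0 : a + t γ 0 ∈ A := by simpa [t] using ha
    have hl := isLUB_csSup (s := {r : ℝ | a + t γ r ∈ A}) ⟨0, h0⟩ ⟨_, hbdd⟩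
    generalize sSup {r : ℝ | a + t γ r ∈ A} = ρ at hl
    have tadd : ∀ r s : ℝ, a + t γ r + t γ s = a + t γ (r + s) := fun r s => by
      simp [t, add_assoc]
    rcases h.cov (a + t γ ρ) with hx | hx
    · refine hκ (hB ▸ res h hx (γ := γ) (fun y hy i hi => hmax i ((hP i).2 ⟨_, hx, y, hy, hi⟩))
        fun r hr => ?_)
      rw [tadd]
      refine (h.cov _).resolve_left fun hh => ?_
      have := hl.1 hh
      linarith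
    · refine hκ (hA ▸ hn2 ▸ res hn (x := -(a + t γ ρ)) (by simpa using hx) (γ := γ)
        (fun y hy i hi => hmax i ((hP i).2 ⟨-y, hy, _, hx, fun j hj => by
          rw [c_neg, ← hi j hj, c_neg, neg_neg]⟩)) fun r hr => ?_)
      obtain ⟨s, hs, hlt⟩ := (lt_isLUB_iff hl).1 (show ρ - r < ρ by linarith)
      have e : -(-(a + t γ ρ) + t γ r) = a + t γ (ρ - r) := by
        simp [t, sub_eq_add_neg]; abel
      show -(-(a + t γ ρ) + t γ r) ∈ A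
      rw [e]
      exact h.dn hs (t_lt _ _ hlt).le

lemma princ (g : ℕ → Γ) (hg : ∀ i, ∃ n, i < g n) (r : H Γ) : cof (Set.Iio r) ≤ ℵ₀ := by
  have hm : ∀ n, r + t (g n) (-1) ∈ Set.Iio r := fun n =>
    ltc.2 ⟨g n, fun j hj => by rw [c_ne _ _ hj.ne], by rw [c_eq]; linarith⟩
  refine (cof_le (s := Set.range fun n => (⟨_, hm n⟩ : Set.Iio r)) fun a => ?_).trans
    (mk_range_le.trans (by simp))
  obtain ⟨i, h1, h2⟩ := ltc.1 a.2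
  obtain ⟨n, hn⟩ := hg i
  exact ⟨_, ⟨n, rfl⟩, (ltc.2 ⟨i, fun j hj => by rw [c_ne _ _ (hj.trans hn).ne, h1 j hj],
    by rw [c_ne _ _ hn.ne]; exact h2⟩ : a.1 < r + t (g n) (-1)).le⟩

lemma cofseq (γ : Γ) (hγ : ∀ j, γ ≤ j) : ∃ g : ℕ → H Γ, ∀ y, ∃ n, y < g n := by
  refine ⟨fun n => 0 + t γ n, fun y => ?_⟩
  obtain ⟨n, hn⟩ := exists_nat_gt (c y γ - c 0 γ)
  exact ⟨n, ltc.2 ⟨γ, fun j hj => absurd hj (not_lt.2 (hγ j)), by rw [c_eq]; linarith⟩⟩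

end Pool.Agent.H.MP_e86704_lc
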