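import Mathlib
import Pool.Agent.H.MP_e86704_lc.A

namespace Pool.Agent.H.MP_e86704_lc

open Cardinal Order

abbrev W (n : ℕ) : Type := (ℵ_ ((n + 1 : ℕ) : Ordinal)).ord.ToType
abbrev Bl (S : Set ℕ) (n : ℕ) : Type := W n ⊕ₗ ({_u : Unit // n ∉ S} ⊕ₗ (W n)ᵒᵈ)
abbrev Gm (S : Set ℕ) : Type := Σₗ n : ℕ, Bl S n

lemma cofW (n : ℕ) : cof (W n) = ℵ_ ((n + 1 : ℕ) : Ordinal) := by
  rw [Ordinal.cof_toType]
  push_cast
  exact (isRegular_aleph_add_one _).cof_ord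

instance (n : ℕ) : Nonempty (W n) := by
  rw [← cof_ne_zero_iff, cofW]; exact (aleph_pos _).ne'

instance (n : ℕ) : NoMaxOrder (W n) := Cardinal.noMaxOrder (aleph0_le_aleph _)

variable {S : Set ℕ}

def mk (n : ℕ) (x : Bl S n) : Gm S := toLex ⟨n, x⟩
def lo (n : ℕ) (w : W n) : Gm S := mk n (toLex (Sum.inl w))
def md (n : ℕ) (h : n ∉ S) : Gm S := mk n (toLex (Sum.inr (toLex (Sum.inl ⟨(), h⟩))))
def hi (n : ℕ) (w : W n) : Gm S := mk n (toLex (Sum.inr (toLex (Sum.inr (OrderDual.toDual w)))))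
def lv (x : Gm S) : ℕ := (ofLex x).1

lemma cs (x : Gm S) : ∃ n, (∃ w, x = lo n w) ∨ (∃ h, x = md n h) ∨ ∃ w, x = hi n w := by
  obtain ⟨n, y⟩ := x
  refine ⟨n, ?_⟩
  rcases y with w | ⟨⟨⟩, h⟩ | w
  · exact Or.inl ⟨w, rfl⟩
  · exact Or.inr (Or.inl ⟨h, rfl⟩)
  · exact Or.inr (Or.inr ⟨w, rfl⟩)

lemma lt_lv {x y : Gm S} (h : lv x < lv y) : x < y := Sigma.Lex.lt_def.2 (Or.inl h)

lemma mk_lt {n : ℕ} {x y : Bl S n} (h : x < y) : mk n x < mk n y :=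
  Sigma.Lex.lt_def.2 (Or.inr ⟨rfl, h⟩)

lemma lv_le {x y : Gm S} (h : x ≤ y) : lv x ≤ lv y :=
  le_of_not_gt fun hh => absurd (lt_lv hh) (not_lt.2 h)

lemma lo_lo (n : ℕ) : StrictMono (lo n : W n → Gm S) := fun _ _ h =>
  mk_lt (Sum.Lex.inl_lt_inl_iff.2 h)
lemma hi_hi (n : ℕ) : StrictAnti (hi n : W n → Gm S) := fun _ _ h =>
  mk_lt (Sum.Lex.inr_lt_inr_iff.2 (Sum.Lex.inr_lt_inr_iff.2 h))
lemma lo_md (n : ℕ) (w : W n) (h : n ∉ S) : lo n w < md n h := mk_lt (Sum.Lex.inl_lt_inr _ _)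
lemma lo_hi (n : ℕ) (w v : W n) : (lo n w : Gm S) < hi n v := mk_lt (Sum.Lex.inl_lt_inr _ _)
lemma md_hi (n : ℕ) (h : n ∉ S) (v : W n) : md n h < hi n v :=
  mk_lt (Sum.Lex.inr_lt_inr_iff.2 (Sum.Lex.inl_lt_inr _ _))
@[simp] lemma lv_lo (n : ℕ) (w : W n) : lv (lo n w : Gm S) = n := rfl
@[simp] lemma lv_hi (n : ℕ) (w : W n) : lv (hi n w : Gm S) = n := rfl
@[simp] lemma lv_md (n : ℕ) (h : n ∉ S) : lv (md n h) = n := rfl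

lemma gm_bot : ∃ γ : Gm S, ∀ j, γ ≤ j := by
  obtain ⟨w, -, hw⟩ := wellFounded_lt.has_min (Set.univ : Set (W 0)) Set.univ_nonempty
  refine ⟨lo 0 w, fun j => ?_⟩
  obtain ⟨n, hn⟩ := cs j
  rcases Nat.eq_zero_or_pos n with rfl | h0
  · rcases hn with ⟨v, rfl⟩ | ⟨h, rfl⟩ | ⟨v, rfl⟩
    · exact (lo_lo 0).monotone (not_lt.1 (hw v trivial))
    · exact (lo_md _ _ _).le
    · exact (lo_hi _ _ _).le
  · rcases hn with ⟨v, rfl⟩ | ⟨h, rfl⟩ | ⟨v, rfl⟩ <;> exact (lt_lv (by simpa using h0)).le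

lemma gm_gap {P Q : Set (Gm S)} (h : Gap P Q) :
    ∃ n ∈ S, cof P = ℵ_ ((n + 1 : ℕ) : Ordinal) := by
  classical
  have hex : ∃ n, ∃ q ∈ Q, lv q = n := by
    obtain ⟨q, hq⟩ := h.neB; exact ⟨_, q, hq, rfl⟩
  obtain ⟨n, ⟨q, hq, hqn⟩, hmin⟩ : ∃ n, (∃ q ∈ Q, lv q = n) ∧ ∀ q ∈ Q, n ≤ lv q :=
    ⟨Nat.find hex, Nat.find_spec hex, fun q hq => Nat.find_min' hex ⟨q, hq, rfl⟩⟩
  have l1 : ∀ w, lo n w ∉ Q := by
    intro w hw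
    obtain ⟨v, hv, hv2⟩ := wellFounded_lt.has_min {v : W n | lo n v ∈ Q} ⟨w, hw⟩
    obtain ⟨b, hb, hlt⟩ := h.nomin _ hv
    have e : lv b = n := le_antisymm (lv_le hlt.le) (hmin b hb)
    obtain ⟨m, ⟨u, rfl⟩ | ⟨u, rfl⟩ | ⟨u, rfl⟩⟩ := cs b <;> obtain rfl : m = n := e
    · exact hv2 u hb ((lo_lo m).lt_iff_lt.1 hlt)
    · exact lt_asymm hlt (lo_md _ _ _)
    · exact lt_asymm hlt (lo_hi _ _ _)
  have l2 : ∀ w, hi n w ∉ P := by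
    intro w hw
    obtain ⟨v, hv, hv2⟩ := wellFounded_lt.has_min {v : W n | hi n v ∈ P} ⟨w, hw⟩
    obtain ⟨b, hb, hlt⟩ := h.nomax _ hv
    have e : lv b = n := le_antisymm (hqn ▸ lv_le (h.lt b hb q hq).le) (lv_le hlt.le)
    obtain ⟨m, ⟨u, rfl⟩ | ⟨u, rfl⟩ | ⟨u, rfl⟩⟩ := cs b <;> obtain rfl : m = n := e
    · exact lt_asymm hlt (lo_hi _ _ _)
    · exact lt_asymm hlt (md_hi _ _ _)
    · exact hv2 u hb ((hi_hi m).lt_iff_gt.1 hlt)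
  have hS : n ∈ S := by
    by_contra hn
    rcases h.cov (md n hn) with hm | hm
    · obtain ⟨b, hb, hlt⟩ := h.nomax _ hm
      have e : lv b = n := le_antisymm (hqn ▸ lv_le (h.lt b hb q hq).le) (lv_le hlt.le)
      obtain ⟨m, ⟨u, rfl⟩ | ⟨u, rfl⟩ | ⟨u, rfl⟩⟩ := cs b <;> obtain rfl : m = n := e
      · exact lt_asymm hlt (lo_md _ _ _)
      · exact lt_irrefl _ hlt
      · exact l2 u hb
    · obtain ⟨b, hb, hlt⟩ := h.nomin _ hm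
      have e : lv b = n := le_antisymm (lv_le hlt.le) (hmin b hb)
      obtain ⟨m, ⟨u, rfl⟩ | ⟨u, rfl⟩ | ⟨u, rfl⟩⟩ := cs b <;> obtain rfl : m = n := e
      · exact l1 u hb
      · exact lt_irrefl _ hlt
      · exact lt_asymm hlt (md_hi _ _ _)
  refine ⟨n, hS, ?_⟩
  rw [← cofW]
  refine cof_up (lo n) (lo_lo n) (fun w => (h.cov _).resolve_right (l1 w)) fun a ha => ?_
  rcases (hqn ▸ lv_le (h.lt a ha q hq).le : lv a ≤ n).lt_or_eq with hh | e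
  · exact ⟨Classical.arbitrary _, (lt_lv hh).le⟩
  · obtain ⟨m, ⟨u, rfl⟩ | ⟨u, rfl⟩ | ⟨u, rfl⟩⟩ := cs a <;> obtain rfl : m = n := e
    · exact ⟨u, le_rfl⟩
    · exact absurd hS u
    · exact absurd ha (l2 u)

lemma gm_has {n : ℕ} (hn : n ∈ S) : ∃ P Q : Set (Gm S), Gap P Q ∧
    cof P = ℵ_ ((n + 1 : ℕ) : Ordinal) ∧ cof (Q)ᵒᵈ = ℵ_ ((n + 1 : ℕ) : Ordinal) := by
  obtain ⟨w0⟩ : Nonempty (W n) := inferInstance
  refine ⟨{x | ∃ w, x ≤ lo n w}, {x | ∃ w, hi n w ≤ x}, ⟨⟨_, w0, le_rfl⟩, ⟨_, w0, le_rfl⟩,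
    ?_, ?_, ?_, fun x => ?_⟩, ?_, ?_⟩
  · rintro a ⟨w, hw⟩ b ⟨v, hv⟩
    exact hw.trans_lt ((lo_hi _ _ _).trans_le hv)
  · rintro a ⟨w, hw⟩
    obtain ⟨v, hv⟩ := exists_gt w
    exact ⟨_, ⟨v, le_rfl⟩, hw.trans_lt (lo_lo n hv)⟩
  · rintro a ⟨w, hw⟩
    obtain ⟨v, hv⟩ := exists_gt w
    exact ⟨_, ⟨v, le_rfl⟩, (hi_hi n hv).trans_le hw⟩
  · rcases lt_trichotomy (lv x) n with h | e | h
    · exact Or.inl ⟨w0, (lt_lv h).le⟩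
    · obtain ⟨m, ⟨u, rfl⟩ | ⟨u, rfl⟩ | ⟨u, rfl⟩⟩ := cs x <;> obtain rfl : m = n := e
      · exact Or.inl ⟨u, le_rfl⟩
      · exact absurd hn u
      · exact Or.inr ⟨u, le_rfl⟩
    · exact Or.inr ⟨w0, (lt_lv (x := hi n w0) h).le⟩
  · rw [← cofW]
    exact cof_up (lo n) (lo_lo n) (fun w => ⟨w, le_rfl⟩) fun a ha => ha
  · rw [← cofW]
    exact cof_dn (hi n) (hi_hi n) (fun w => ⟨w, le_rfl⟩) fun a ha => ha

abbrev K (S : Set ℕ) : Type := H (H (Gm S))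

lemma homog {F : Type} [Field F] [LinearOrder F] [IsStrictOrderedRing F] (a b c d : F)
    (h1 : a < b) (h2 : c < d) : Nonempty (Set.Icc a b ≃o Set.Icc c d) := by
  have hp : 0 < (d - c) / (b - a) := div_pos (sub_pos.2 h2) (sub_pos.2 h1)
  let e : F ≃o F := ((OrderIso.subRight a).trans (OrderIso.mulRight₀ _ hp)).trans
    (OrderIso.addRight c)
  have ea : e a = c := by simp [e]
  have eb : e b = d := by
    have := (sub_pos.2 h1).ne'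
    simp [e]; field_simp; ring
  refine ⟨StrictMono.orderIsoOfSurjective
    (fun x => ⟨e x.1, ea ▸ e.monotone x.2.1, eb ▸ e.monotone x.2.2⟩)
    (fun x y h => e.strictMono h) fun y => ⟨⟨e.symm y.1, ?_, ?_⟩, by simp⟩⟩
  · rw [e.le_symm_apply, ea]; exact y.2.1
  · rw [e.symm_apply_le, eb]; exact y.2.2

lemma ne0 (n : ℕ) : ℵ₀ < ℵ_ ((n + 1 : ℕ) : Ordinal) := by
  rw [← aleph_zero, aleph_lt_aleph]; exact_mod_cast Nat.succ_pos n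

theorem diag_iff (S : Set ℕ) (n : ℕ) :
    (∃ A B : Set (K S), (A.Nonempty ∧ B.Nonempty ∧ (∀ a ∈ A, ∀ b ∈ B, a < b) ∧
      (∀ a ∈ A, ∃ a' ∈ A, a < a') ∧ (∀ b ∈ B, ∃ b' ∈ B, b' < b) ∧
      (A ∪ B = Set.univ ∨
        ∃ r, (∀ a ∈ A, a < r) ∧ (∀ b ∈ B, r < b) ∧ A ∪ {r} ∪ B = Set.univ)) ∧
      cof A = ℵ_ ((n + 1 : ℕ) : Ordinal) ∧ cof (B)ᵒᵈ = ℵ_ ((n + 1 : ℕ) : Ordinal)) ↔ n ∈ S := by
  constructor
  · rintro ⟨A, B, ⟨h1, h2, h3, h4, h5, h6 | ⟨r, r1, r2, r3⟩⟩, cA, cB⟩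
    · obtain ⟨P, Q, g, e1, e2⟩ := gap_down ⟨h1, h2, h3, h4, h5,
        fun x => (h6 ▸ Set.mem_univ x : x ∈ A ∪ B)⟩ (ne0 n).ne' cA cB
      obtain ⟨P', Q', g', e1', -⟩ := gap_down g (ne0 n).ne' e1 e2
      obtain ⟨m, hm, e⟩ := gm_gap g'
      rw [e1'] at e
      have : n = m := Nat.succ_injective (Nat.cast_injective (aleph.injective e))
      exact this ▸ hm
    · exfalso
      have hA : A = Set.Iio r := by
        refine Set.Subset.antisymm r1 fun x hx => ?_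
        rcases (r3 ▸ Set.mem_univ x : x ∈ A ∪ {r} ∪ B) with (h | h) | h
        · exact h
        · exact absurd h (ne_of_lt hx)
        · exact absurd (r2 x h) (lt_asymm hx)
      obtain ⟨γ, hγ⟩ := gm_bot (S := S)
      obtain ⟨g, hg⟩ := cofseq γ hγ
      have := princ g hg r
      rw [← hA, cA] at this
      exact absurd (ne0 n) (not_lt.2 this)
  · intro hn
    obtain ⟨P, Q, g, e1, e2⟩ := gm_has hn
    obtain ⟨P', Q', g', e1', e2'⟩ := gap_up g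
    obtain ⟨A, B, g2, f1, f2⟩ := gap_up g'
    exact ⟨A, B, ⟨g2.neA, g2.neB, g2.lt, g2.nomax, g2.nomin,
      Or.inl (Set.eq_univ_of_forall g2.cov)⟩, by rw [f1, e2', e1], by rw [f2, e1', e2]⟩

end Pool.Agent.H.MP_e86704_lc
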